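import Pool.Agent.H21.WT2

set_option autoImplicit false

namespace Pool.Agent.Results.MP_1abb56_al.KrylovSquare

open Pool.Agent.H21.WT

theorem result : ∃ (G : Type) (_ : AddCommGroup G),
    (∀ (n : ℕ) (x : G), n ≠ 0 → n • x = 0 → x = 0) ∧ KrylovTransitive G ∧ ¬ WeaklyTransitive (G × G) := by
  obtain ⟨G, i, h1, h2, h3, h4⟩ := main
  exact ⟨G, i, h1, h2, h4⟩

end Pool.Agent.Results.MP_1abb56_al.KrylovSquare
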